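import Pool.Agent.Lib.MP_eeed5f_gt.ST

/-!
# MP_eeed5f_gt, Q1: full answer, the statement is TRUE

A causal spacetime without observer horizons whose group of time orientation preserving conformal
transformations is essential is conformally flat.

Idea of the proof.  (A) For a family `Φ_k` of conformal maps with `Φ_k (x_k)` convergent for one convergent
sequence `x_k`, causality and the no observer horizons condition force all orbits to be bounded.
(B) If the tractor two-jets of all such families are bounded, then the group acts properly, and an
average over Haar measure gives an invariant metric in the conformal class.  (C) Otherwise there is a family with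
unbounded jets; the rescaled limit of the tractor jets is a nonzero nilpotent parallel section on `M`, the
orbits stay bounded, and comparison of the Weyl (and Cotton) tensors along the family gives first that they are of
a very special null form along a null congruence, and then, by the no observer horizons condition
again, that they vanish.
-/

open scoped Manifold ContDiff Topology

namespace Pool.Agent.Results.MP_eeed5f_gt.EssentialFlat

open Pool.Agent.NOH

universe u

theorem result {n : ℕ} {M : Type u} [TopologicalSpace M]
    [ChartedSpace (EuclideanSpace ℝ (Fin (n + 1))) M]
    [IsManifold 𝓘(ℝ, EuclideanSpace ℝ (Fin (n + 1))) ∞ M] [T2Space M] [SecondCountableTopology M]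
    (S : Spacetime (EuclideanSpace ℝ (Fin (n + 1))) M) (hcausal : IsCausal S)
    (hnoh : NoObserverHorizons S) (hess : Essential S) : ConformallyFlat S :=
  Pool.Agent.EG.main' S hcausal hnoh hess

end Pool.Agent.Results.MP_eeed5f_gt.EssentialFlat
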